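import Mathlib

set_option autoImplicit false

namespace Pool.Agent.Results.MP_29b953_an.Counter

open Polynomial Real

/-- `f` is a compressing function for `S`: `S` is the set of the first `|S|` points of the
orbit of some `x0 ∈ S` under `f`. -/
def IsCompressing (f : ℝ[X]) (S : Finset ℝ) : Prop :=
  ∃ x0 ∈ S, S = (Finset.range S.card).image (fun i => (fun x => f.eval x)^[i] x0)

/-- `S` is `K`-compressible. -/
def Compressible (K : ℕ) (S : Finset ℝ) : Prop :=
  ∃ f : ℝ[X], f.natDegree ≤ K ∧ IsCompressing f S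

/-- At most one polynomial of degree between `2` and `K` compresses `S`. -/
def AtMostOne (K : ℕ) (S : Finset ℝ) : Prop :=
  ∀ f g : ℝ[X], 2 ≤ f.natDegree → f.natDegree ≤ K → 2 ≤ g.natDegree → g.natDegree ≤ K →
    IsCompressing f S → IsCompressing g S → f = g

noncomputable def C (m : ℕ) (k : ℤ) : ℝ := Real.cos (2 * π * k / m)

lemma C_eq_iff (m : ℕ) (hm : 0 < m) (k l : ℤ) :
    C m k = C m l ↔ ((k : ZMod m) = l ∨ (k : ZMod m) = -l) := by
  have hm' : (m : ℝ) ≠ 0 := by positivity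
  have hpi : (2 * π : ℝ) ≠ 0 := by positivity
  unfold C
  rw [Real.cos_eq_cos_iff]
  constructor
  · rintro ⟨j, h | h⟩
    · left
      have h1 : (l : ℝ) = j * m + k := by
        field_simp at h
        linarith
      have h2 : l = j * m + k := by exact_mod_cast h1
      rw [h2]; push_cast; simp
    · right
      have h1 : (l : ℝ) = j * m - k := by
        field_simp at h
        linarith
      have h2 : l = j * m - k := by exact_mod_cast h1
      rw [h2]; push_cast; simp
  · rintro (h | h)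
    · obtain ⟨j, hj⟩ := (ZMod.intCast_eq_intCast_iff_dvd_sub k l m).1 h
      refine ⟨j, Or.inl ?_⟩
      have h1 : (l : ℝ) = m * j + k := by
        have : l = m * j + k := by linarith
        exact_mod_cast this
      rw [h1]; field_simp
    · have h' : ((-k : ℤ) : ZMod m) = l := by push_cast; rw [h]; simp
      obtain ⟨j, hj⟩ := (ZMod.intCast_eq_intCast_iff_dvd_sub (-k) l m).1 h'
      refine ⟨j, Or.inr ?_⟩
      have h1 : (l : ℝ) = m * j - k := by
        have : l = m * j - k := by linarith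
        exact_mod_cast this
      rw [h1]; field_simp

lemma order_eq (n : ℕ) (a : ℕ) (b : ℤ) (hb : ¬ (5 : ℤ) ∣ b) (hab : (a : ℤ) ^ 4 = 1 + 5 * b)
    (h5 : orderOf (a : ZMod 5) = 4) : orderOf (a : ZMod (5 ^ (n + 1))) = 4 * 5 ^ n := by
  have h1 := ZMod.orderOf_one_add_mul_prime (p := 5) (by norm_num) (by norm_num) b
    (by exact_mod_cast hb) n
  have h2 : (a : ZMod (5 ^ (n + 1))) ^ 4 = 1 + (5 : ℕ) * (b : ZMod (5 ^ (n + 1))) := by
    have := congrArg (fun z : ℤ => (z : ZMod (5 ^ (n + 1)))) hab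
    simpa using this
  rw [← h2] at h1
  apply Nat.dvd_antisymm
  · apply orderOf_dvd_of_pow_eq_one
    rw [pow_mul, ← h1, pow_orderOf_eq_one]
  · apply Nat.Coprime.mul_dvd_of_dvd_of_dvd
    · exact Nat.Coprime.pow_right _ (by norm_num)
    · rw [← h5]
      apply orderOf_dvd_of_pow_eq_one
      have h3 := pow_orderOf_eq_one (a : ZMod (5 ^ (n + 1)))
      have h4 := congrArg (ZMod.castHom (dvd_pow_self 5 (Nat.succ_ne_zero n)) (ZMod 5)) h3
      rw [map_pow, map_natCast, map_one] at h4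
      exact h4
    · rw [← h1]
      exact orderOf_pow_dvd 4

section gen

variable (m N a : ℕ)

lemma pow_surj (hm : 0 < m) (hN : 0 < N) (hphi : m.totient = 2 * N)
    (ho : orderOf (a : ZMod m) = 2 * N) (u : ZMod m) (hu : IsUnit u) :
    ∃ j < 2 * N, (a : ZMod m) ^ j = u := by
  have : NeZero m := ⟨hm.ne'⟩
  have hau : IsUnit (a : ZMod m) := by
    have : IsOfFinOrder (a : ZMod m) := by
      rw [← orderOf_pos_iff, ho]; omega
    exact this.isUnit
  obtain ⟨g, hg⟩ := hau
  obtain ⟨v, rfl⟩ := hu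
  have hog : orderOf g = 2 * N := by rw [← orderOf_units, hg, ho]
  have htop : Subgroup.zpowers g = ⊤ := by
    rw [← Subgroup.card_eq_iff_eq_top, Nat.card_zpowers, hog, Nat.card_eq_fintype_card,
      ZMod.card_units_eq_totient, hphi]
  have hv : v ∈ Subgroup.zpowers g := by rw [htop]; trivial
  rw [mem_zpowers_iff_mem_range_orderOf] at hv
  obtain ⟨j, hj, hjv⟩ := Finset.mem_image.1 hv
  refine ⟨j, by rw [← hog]; exact Finset.mem_range.1 hj, ?_⟩
  rw [← hjv, ← hg]; simp

lemma pow_half (hm : 2 < m) (hN : 0 < N) (hphi : m.totient = 2 * N)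
    (ho : orderOf (a : ZMod m) = 2 * N) : (a : ZMod m) ^ N = -1 := by
  obtain ⟨j, hj, h⟩ := pow_surj m N a (by omega) hN hphi ho (-1) (isUnit_one.neg)
  have h2 : (a : ZMod m) ^ (2 * j) = 1 := by rw [mul_comm, pow_mul, h]; simp
  have h3 := orderOf_dvd_of_pow_eq_one h2
  rw [ho] at h3
  have h4 : N ∣ j := Nat.dvd_of_mul_dvd_mul_left (by norm_num) h3
  obtain ⟨c, rfl⟩ := h4
  have hc : c < 2 := by
    by_contra hc
    have : N * 2 ≤ N * c := Nat.mul_le_mul_left _ (by omega)
    omega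
  interval_cases c
  · exfalso
    simp only [mul_zero, pow_zero] at h
    have h2 : ((2 : ℕ) : ZMod m) = 0 := by
      push_cast
      linear_combination h
    rw [ZMod.natCast_eq_zero_iff] at h2
    have := Nat.le_of_dvd (by norm_num) h2
    omega
  · simpa using h

noncomputable def orb : Finset ℝ := (Finset.range N).image (fun i => C m ((a : ℤ) ^ i))

lemma mem_orb (hm : 2 < m) (hN : 0 < N) (hphi : m.totient = 2 * N)
    (ho : orderOf (a : ZMod m) = 2 * N) (k : ℤ) (hk : IsUnit (k : ZMod m)) :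
    C m k ∈ orb m N a := by
  obtain ⟨j, hj, h⟩ := pow_surj m N a (by omega) hN hphi ho _ hk
  have hh := pow_half m N a hm hN hphi ho
  unfold orb
  rw [Finset.mem_image]
  by_cases hjN : j < N
  · refine ⟨j, Finset.mem_range.2 hjN, ?_⟩
    rw [C_eq_iff m (by omega)]
    left; push_cast; exact h
  · refine ⟨j - N, Finset.mem_range.2 (by omega), ?_⟩
    rw [C_eq_iff m (by omega)]
    right; push_cast
    rw [← h]
    have : j = (j - N) + N := by omega
    conv_rhs => rw [this, pow_add, hh]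
    simp

lemma card_orb (hm : 2 < m) (hN : 0 < N) (hphi : m.totient = 2 * N)
    (ho : orderOf (a : ZMod m) = 2 * N) : (orb m N a).card = N := by
  have hh := pow_half m N a hm hN hphi ho
  unfold orb
  rw [Finset.card_image_of_injOn, Finset.card_range]
  intro i hi j hj h
  have hi' : i < N := by simpa using hi
  have hj' : j < N := by simpa using hj
  have h' : C m ((a : ℤ) ^ i) = C m ((a : ℤ) ^ j) := h
  rw [C_eq_iff m (by omega)] at h'
  push_cast at h'
  have inj := pow_injOn_Iio_orderOf (x := (a : ZMod m))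
  rw [ho] at inj
  rcases h' with h' | h'
  · exact inj (show i < 2 * N by omega) (show j < 2 * N by omega) h'
  · have : (a : ZMod m) ^ i = (a : ZMod m) ^ (j + N) := by rw [pow_add, hh, h']; simp
    have := inj (show i < 2 * N by omega) (show j + N < 2 * N by omega) this
    omega

lemma compress (hm : 2 < m) (hN : 0 < N) (hphi : m.totient = 2 * N)
    (ho : orderOf (a : ZMod m) = 2 * N) (f : ℝ[X])
    (hf : ∀ x : ℝ, f.eval (Real.cos x) = Real.cos (a * x)) : IsCompressing f (orb m N a) := by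
  have key : ∀ i : ℕ, (fun x => f.eval x)^[i] (C m 1) = C m ((a : ℤ) ^ i) := by
    intro i
    induction i with
    | zero => simp
    | succ i ih =>
      rw [Function.iterate_succ_apply', ih]
      unfold C
      rw [hf]
      congr 1
      push_cast
      ring
  refine ⟨C m 1, mem_orb m N a hm hN hphi ho 1 (by simp), ?_⟩
  rw [card_orb m N a hm hN hphi ho]
  simp only [key]
  rfl

lemma orb_sub (b : ℕ) (hm : 2 < m) (hN : 0 < N) (hphi : m.totient = 2 * N)
    (ho : orderOf (a : ZMod m) = 2 * N) (hb : orderOf (b : ZMod m) = 2 * N) :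
    orb m N b ⊆ orb m N a := by
  intro x hx
  obtain ⟨i, -, rfl⟩ := Finset.mem_image.1 hx
  apply mem_orb m N a hm hN hphi ho
  push_cast
  have : IsOfFinOrder (b : ZMod m) := by
    rw [← orderOf_pos_iff, hb]; omega
  exact this.isUnit.pow i

end gen

lemma main (K : ℕ) (hK : 3 ≤ K) (n : ℕ) :
    ∃ S : Finset ℝ, S.card = 2 * 5 ^ n ∧ Compressible K S ∧ ¬ AtMostOne K S := by
  have hm : 2 < 5 ^ (n + 1) := by
    have : 1 ≤ 5 ^ n := Nat.one_le_pow _ _ (by norm_num)
    rw [pow_succ]; omega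
  have hN : 0 < 2 * 5 ^ n := by positivity
  have hphi : (5 ^ (n + 1)).totient = 2 * (2 * 5 ^ n) := by
    rw [Nat.totient_prime_pow_succ (by norm_num)]; ring
  have o2 : orderOf ((2 : ℕ) : ZMod (5 ^ (n + 1))) = 2 * (2 * 5 ^ n) := by
    rw [order_eq n 2 3 (by norm_num) (by norm_num) ?_]
    · ring
    · rw [orderOf_eq_iff (by norm_num)]
      decide
  have o3 : orderOf ((3 : ℕ) : ZMod (5 ^ (n + 1))) = 2 * (2 * 5 ^ n) := by
    rw [order_eq n 3 16 (by norm_num) (by norm_num) ?_]
    · ring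
    · rw [orderOf_eq_iff (by norm_num)]
      decide
  have heq : orb (5 ^ (n + 1)) (2 * 5 ^ n) 3 = orb (5 ^ (n + 1)) (2 * 5 ^ n) 2 :=
    Finset.Subset.antisymm (orb_sub _ _ 2 3 hm hN hphi o2 o3) (orb_sub _ _ 3 2 hm hN hphi o3 o2)
  have d2 : (2 * X ^ 2 - 1 : ℝ[X]).natDegree = 2 := by compute_degree!
  have d3 : (4 * X ^ 3 - 3 * X : ℝ[X]).natDegree = 3 := by compute_degree!
  have c2 := compress _ _ 2 hm hN hphi o2 (2 * X ^ 2 - 1) (by
    intro x; simp [Real.cos_two_mul])
  have c3 := compress _ _ 3 hm hN hphi o3 (4 * X ^ 3 - 3 * X) (by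
    intro x; simp [Real.cos_three_mul])
  rw [heq] at c3
  refine ⟨_, card_orb _ _ 2 hm hN hphi o2, ⟨_, by rw [d2]; omega, c2⟩, fun h => ?_⟩
  have := h _ _ (by rw [d2]) (by rw [d2]; omega) (by rw [d3]; omega) (by rw [d3]; omega) c2 c3
  rw [this, d3] at d2
  omega

theorem result :
    (∀ K : ℕ, 3 ≤ K → ∀ n : ℕ,
      ∃ S : Finset ℝ, S.card = 2 * 5 ^ n ∧ Compressible K S ∧ ¬ AtMostOne K S) ∧
    ¬ (∀ K : ℕ, 2 ≤ K → ∃ M : ℕ, ∀ N : ℕ, M ≤ N → ∀ S : Finset ℝ, S.card = N →
      Compressible K S → AtMostOne K S) := by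
  refine ⟨main, fun h => ?_⟩
  obtain ⟨M, hM⟩ := h 3 (by norm_num)
  obtain ⟨S, h1, h2, h3⟩ := main 3 le_rfl M
  refine h3 (hM _ ?_ S h1 h2)
  have : M < 5 ^ M := Nat.lt_pow_self (by norm_num)
  omega

end Pool.Agent.Results.MP_29b953_an.Counter
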